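import Pool.Agent.H.MP_e14cd3_lc.A

namespace Pool.Agent.Results.MP_e14cd3_lc.Hard

open Pool.Agent.Lib.CX Pool.Agent.Lib.ER Pool.Agent.H.MP_e14cd3_lc

/-- the graph has an orthogonal representation in `ℝ^3` by pairwise non-collinear nonzero vectors -/
def Orth3 (a : Gr) : Prop :=
  ∃ φ : Fin a.n → EuclideanSpace ℝ (Fin 3), (∀ v, φ v ≠ 0) ∧ (∀ u v, u ≠ v → ∀ c : ℝ, φ u ≠ c • φ v) ∧
    ∀ u v, a.G.Adj u v → inner ℝ (φ u) (φ v) = 0

theorem mk_iff (V : List Nm) (L : List (Nm × Nm)) (h : ∀ e ∈ L, e.1 ∈ V ∧ e.2 ∈ V ∧ e.1 ≠ e.2) :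
    Orth3 (mkGr V L) ↔ ∃ ψ : Nm → EuclideanSpace ℝ (Fin 3), (∀ v ∈ V, ψ v ≠ 0) ∧
      (∀ u ∈ V, ∀ v ∈ V, ∀ c : ℝ, ψ u = c • ψ v → u = v) ∧ ∀ e ∈ L, inner ℝ (ψ e.1) (ψ e.2) = 0 := by
  constructor
  · rintro ⟨φ, h1, h2, h3⟩
    refine ⟨fun x => if h : x ∈ V then φ ((mkGrIso V L).symm ⟨x, h⟩) else 0, fun v hv => by simp [hv, h1],
      fun u hu v hv c e => ?_, fun e he => ?_⟩
    · by_contra n
      simp only [hu, hv, dif_pos] at e
      exact h2 _ _ (fun q => n (congrArg Subtype.val ((mkGrIso V L).symm.injective q))) c e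
    · obtain ⟨a, b, c⟩ := h e he
      simp only [a, b, dif_pos]
      exact h3 _ _ ((mkGrIso V L).symm.map_rel_iff.2 (by simp [c, he]))
  · rintro ⟨ψ, h1, h2, h3⟩
    refine ⟨fun i => ψ (mkGrIso V L i).1, fun i => h1 _ (mkGrIso V L i).2, fun u v n c e =>
      n ((mkGrIso V L).injective (Subtype.ext (h2 _ (mkGrIso V L u).2 _ (mkGrIso V L v).2 c e))), fun u v a => ?_⟩
    have := (mkGrIso V L).map_rel_iff.2 a
    simp only [SimpleGraph.comap_adj, Function.Embedding.subtype_apply, SimpleGraph.fromRel_adj] at this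
    rcases this.2 with q | q
    · exact h3 _ q
    · rw [real_inner_comm]; exact h3 _ q

theorem result : Red ETR Orth3 := by
  refine etr_of_dq (fun a => mkGr (vs a.1.length) (es a.1.length a.2)) (by unfold vs es; fun_prop) fun M E h0 hE => ?_
  rw [mk_iff _ _ (es_ok h0 hE)]
  constructor
  · rintro ⟨x, x0, hx, h⟩
    refine ⟨fun v => !₂[cX x v, cY x v, cZ x v], fun v hv e => c_ne (x := x) v hv ?_, fun u hu v hv c e => ?_, fun e he => ?_⟩
    · exact ⟨congrFun (congrArg WithLp.ofLp e) 0, congrFun (congrArg WithLp.ofLp e) 1, congrFun (congrArg WithLp.ofLp e) 2⟩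
    · refine c_dist (x := x) (fun i hi => ?_) (fun i hi j hj e => ?_) u hu v hv c (congrFun (congrArg WithLp.ofLp e) 0)
        (congrFun (congrArg WithLp.ofLp e) 1) (congrFun (congrArg WithLp.ofLp e) 2)
      · rcases Nat.eq_zero_or_pos i with rfl | c
        · simp [x0]
        · linarith [hx 0 i c hi]
      · rcases lt_trichotomy i j with c | c | c
        · exact absurd e (hx i j c hj).ne
        · exact c
        · exact absurd e (hx j i c hi).ne'
    · rw [← c_orth x0 h e he]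
      simp [PiLp.inner_apply, Fin.sum_univ_three, mul_comm]
  · rintro ⟨ψ, h1, h2, h3⟩
    obtain ⟨⟨a0, a1, a2⟩, b, c⟩ := (all_vs (M := M.length) (· ∈ vs M.length)).1 fun _ h => h
    obtain ⟨⟨o1, o2, o3⟩, o4, -⟩ := (all_es _).1 h3
    let e : Fin 3 → EuclideanSpace ℝ (Fin 3) := fun i => ‖ψ (0, i, 0)‖⁻¹ • ψ (0, i, 0)
    have n : ∀ i : Fin 3, ψ (0, i, 0) ≠ 0 := fun i => h1 _ (by fin_cases i <;> assumption)
    have oo : ∀ i j : Fin 3, i ≠ j → inner ℝ (ψ (0, i, 0)) (ψ (0, j, 0)) = 0 := fun i j h => by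
      fin_cases i <;> fin_cases j <;> first | exact absurd rfl h | assumption | (rw [real_inner_comm]; assumption)
    have he : Orthonormal ℝ e := ⟨fun i => norm_smul_inv_norm (n i), fun i j h => by
      simp [e, inner_smul_left, inner_smul_right, oo i j h]⟩
    have P := fun p q => (pars e he p q).trans (Fin.sum_univ_three _)
    have z : ∀ (i : Fin 3) p, inner ℝ (ψ (0, i, 0)) p = 0 → inner ℝ (e i) p = 0 := fun i p h => by
      simp [e, inner_smul_left, h]
    have col : ∀ (i : Fin 3) v, v ∈ vs M.length → v.1 ≠ 0 → ¬∀ j, j ≠ i → inner ℝ (e j) (ψ v) = 0 := fun i v hv v0 h => by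
      refine v0 (congrArg Prod.fst (h2 v hv (0, i, 0) (by fin_cases i <;> assumption)
        (inner ℝ (e i) (ψ v) * ‖ψ (0, i, 0)‖⁻¹) ?_))
      rw [mul_smul]
      refine ext_inner_left ℝ fun p => ?_
      rw [pars e he, Finset.sum_eq_single i (fun j _ hj => by rw [h j hj, mul_zero]) (by simp), inner_smul_right,
        real_inner_comm, mul_comm]
    refine sound h0 hE (fun v => inner ℝ (e 0) (ψ v)) (fun v => inner ℝ (e 1) (ψ v)) (fun v => inner ℝ (e 2) (ψ v))
      ⟨z 1 _ (oo 1 0 (by decide)), z 2 _ (oo 2 0 (by decide)), z 0 _ (oo 0 1 (by decide)), z 2 _ (oo 2 1 (by decide)),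
        z 0 _ (oo 0 2 (by decide)), z 1 _ (oo 1 2 (by decide))⟩ (fun v hv h => h1 v hv ?_)
      (fun q hq => by rw [← P]; exact h3 q hq) (fun v hv h => col 2 _ (b v hv).1 (by simp) ?_)
      ⟨fun h => col 2 _ (b 0 h0).2.1 (by simp) ?_, fun h => col 1 _ (b 0 h0).2.1 (by simp) ?_⟩
      ⟨fun h => col 1 _ (b 0 h0).2.2.1 (by simp) ?_, fun h => col 0 _ (b 0 h0).2.2.1 (by simp) ?_⟩
    · rw [← inner_self_eq_zero (𝕜 := ℝ), P, h.1, h.2.1, h.2.2]; simp
    · have := z 1 _ (o4 v hv).1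
      intro j hj; fin_cases j <;> first | exact absurd rfl hj | assumption
    · have := z 0 _ (o4 0 h0).2.1
      intro j hj; fin_cases j <;> first | exact absurd rfl hj | assumption
    · have := z 0 _ (o4 0 h0).2.1
      intro j hj; fin_cases j <;> first | exact absurd rfl hj | assumption
    · have := z 2 _ (o4 0 h0).2.2.1
      intro j hj; fin_cases j <;> first | exact absurd rfl hj | assumption
    · have := z 2 _ (o4 0 h0).2.2.1
      intro j hj; fin_cases j <;> first | exact absurd rfl hj | assumption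

end Pool.Agent.Results.MP_e14cd3_lc.Hard
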